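import Pool.Agent.N627.ND.Stm

/-!
PROJECT ND (helper627), leaves DD and BD: distances after deletions and in balls (helper749).
-/

set_option autoImplicit false

namespace Pool.Agent.N749.ND

open Pool.Agent.N627.ND

theorem adj_edist {V : Type} {G : SimpleGraph V} {x z : V} (h : G.Adj x z) : G.edist x z ≤ 1 := by
  have := SimpleGraph.edist_le h.toWalk
  simpa using this

theorem step {V : Type} {G : SimpleGraph V} {x z y : V} {m : ℕ} (h : G.Adj x z)
    (h2 : G.edist z y ≤ m) : G.edist x y ≤ ((m + 1 : ℕ) : ℕ∞) := by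
  calc G.edist x y ≤ G.edist x z + G.edist z y := SimpleGraph.edist_triangle
    _ ≤ 1 + m := add_le_add (adj_edist h) h2
    _ = ((m + 1 : ℕ) : ℕ∞) := by push_cast; ring

theorem del_le {V : Type} (H : SimpleGraph V) {s : ℕ} (w : Fin s → V) : del H w ≤ H :=
  fun _ _ h => h.1

theorem ball_le {V : Type} (G : SimpleGraph V) (c : V) (R : ℕ) : ball G c R ≤ G :=
  fun _ _ h => h.1

theorem dd_walk {V : Type} (H : SimpleGraph V) (s : ℕ) (w : Fin s → V) {x y : V}
    (p : H.Walk x y) : (del H w).edist x y ≤ (p.length : ℕ) ∨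
    ∃ (i : Fin s) (e1 e2 : ℕ), e1 + e2 ≤ p.length ∧ H.edist x (w i) ≤ e1 ∧
      H.edist y (w i) ≤ e2 := by
  induction p with
  | nil =>
    left
    rw [SimpleGraph.edist_self]
    exact zero_le
  | @cons x z y h q ih =>
    rw [SimpleGraph.Walk.length_cons]
    rcases ih with ih | ⟨i, e1, e2, h1, h2, h3⟩
    · by_cases hx : ∃ i, x = w i
      · obtain ⟨i, rfl⟩ := hx
        right
        refine ⟨i, 0, q.length + 1, by omega, ?_, ?_⟩
        · rw [SimpleGraph.edist_self]; exact zero_le
        · rw [SimpleGraph.edist_comm]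
          exact step h (SimpleGraph.edist_le q)
      · by_cases hz : ∃ i, z = w i
        · obtain ⟨i, rfl⟩ := hz
          right
          refine ⟨i, 1, q.length, by omega, ?_, ?_⟩
          · exact_mod_cast adj_edist h
          · rw [SimpleGraph.edist_comm]
            exact SimpleGraph.edist_le q
        · left
          push Not at hx hz
          exact step (G := del H w) ⟨h, hx, hz⟩ ih
    · right
      exact ⟨i, e1 + 1, e2, by omega, step h h2, h3⟩

theorem dd : S_DD := by
  intro V H s w e x y
  constructor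
  · intro h
    have hne : H.edist x y ≠ ⊤ := ne_top_of_le_ne_top (ENat.natCast_ne_top e) h
    obtain ⟨p, hp⟩ := SimpleGraph.exists_walk_of_edist_ne_top hne
    rw [← hp] at h
    have hle : p.length ≤ e := by exact_mod_cast h
    rcases dd_walk H s w p with h1 | ⟨i, e1, e2, h1, h2, h3⟩
    · left
      exact h1.trans (by exact_mod_cast hle)
    · right
      exact ⟨i, e1, e2, h1.trans hle, h2, h3⟩
  · rintro (h | ⟨i, e1, e2, h1, h2, h3⟩)
    · exact (SimpleGraph.edist_anti (del_le H w)).trans h
    · rw [SimpleGraph.edist_comm] at h3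
      calc H.edist x y ≤ H.edist x (w i) + H.edist (w i) y := SimpleGraph.edist_triangle
        _ ≤ e1 + e2 := add_le_add h2 h3
        _ ≤ e := by exact_mod_cast h1

theorem bd_walk {V : Type} (G : SimpleGraph V) (c : V) (r R : ℕ) {x y : V} (p : G.Walk x y)
    (hy : G.edist c y ≤ r) (hR : r + p.length ≤ R) :
    (ball G c R).edist x y ≤ (p.length : ℕ) ∧ G.edist c x ≤ ((r + p.length : ℕ) : ℕ∞) := by
  induction p with
  | nil =>
    refine ⟨?_, ?_⟩
    · rw [SimpleGraph.edist_self]; exact zero_le
    · simpa using hy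
  | @cons x z y h q ih =>
    rw [SimpleGraph.Walk.length_cons] at hR ⊢
    obtain ⟨h1, h2⟩ := ih hy (by omega)
    have h3 : G.edist c x ≤ ((r + (q.length + 1) : ℕ) : ℕ∞) := by
      rw [SimpleGraph.edist_comm] at h2 ⊢
      exact step h h2
    refine ⟨step (G := ball G c R) ⟨h, ?_, ?_⟩ h1, h3⟩
    · exact h3.trans (by exact_mod_cast hR)
    · exact h2.trans (by exact_mod_cast (by omega : r + q.length ≤ R))

theorem bd : S_BD := by
  intro V G c x y r e R hy hR
  constructor
  · intro h
    exact (SimpleGraph.edist_anti (ball_le G c R)).trans h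
  · intro h
    have hne : G.edist x y ≠ ⊤ := ne_top_of_le_ne_top (ENat.natCast_ne_top e) h
    obtain ⟨p, hp⟩ := SimpleGraph.exists_walk_of_edist_ne_top hne
    rw [← hp] at h
    have hle : p.length ≤ e := by exact_mod_cast h
    exact (bd_walk G c r R p hy (by omega)).1.trans (by exact_mod_cast hle)

end Pool.Agent.N749.ND
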