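import Pool.Agent.N627.ND.Stm

/-!
PROJECT ND (helper627), leaf FM: first-order formulas are determined by plain types (helper749).
-/

set_option autoImplicit false

namespace Pool.Agent.N749.ND

open FirstOrder Pool.Agent.N627.ND

/-- quantifier depth -/
def dep {α : Type} : {n : ℕ} → Language.graph.BoundedFormula α n → ℕ
  | _, .falsum => 0
  | _, .equal _ _ => 0
  | _, .rel _ _ => 0
  | _, .imp f g => max (dep f) (dep g)
  | _, .all f => dep f + 1

theorem O_zero {V K : Type} (G : SimpleGraph V) (κ : V → K) (n : ℕ) (z z' : Fin n → V) :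
    ∀ j, O G κ j n z = O G κ j n z' → O G κ 0 n z = O G κ 0 n z' := by
  intro j
  induction j with
  | zero => exact fun h => h
  | succ j ih => exact fun h => ih (congrArg Prod.fst h)

theorem term_eq {V α : Type} (G : SimpleGraph V) {n m : ℕ} (g : α → Fin m) (h : Fin n → Fin m)
    (t : Language.graph.Term (α ⊕ Fin n)) :
    ∃ i : Fin m, ∀ z : Fin m → V,
      @Language.Term.realize Language.graph V G.structure _ (Sum.elim (z ∘ g) (z ∘ h)) t
        = z i := by
  cases t with
  | var x =>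
    refine ⟨Sum.elim g h x, fun z => ?_⟩
    cases x <;> rfl
  | func f _ => exact Empty.elim f

theorem gen {V α : Type} (G : SimpleGraph V) {n : ℕ} (ψ : Language.graph.BoundedFormula α n) :
    ∀ (m : ℕ) (g : α → Fin m) (h : Fin n → Fin m) (j : ℕ), dep ψ ≤ j → ∀ z z' : Fin m → V,
      O G (fun _ => ()) j m z = O G (fun _ => ()) j m z' →
      (@Language.BoundedFormula.Realize Language.graph V G.structure α n ψ (z ∘ g) (z ∘ h) ↔
        @Language.BoundedFormula.Realize Language.graph V G.structure α n ψ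
          (z' ∘ g) (z' ∘ h)) := by
  letI := G.structure
  induction ψ with
  | falsum => exact fun m g h j _ z z' _ => Iff.rfl
  | equal t1 t2 =>
    intro m g h j _ z z' hO
    obtain ⟨i1, h1⟩ := term_eq G g h t1
    obtain ⟨i2, h2⟩ := term_eq G g h t2
    have h0 := O_zero G _ m z z' j hO
    have h3 : (z i1 = z i2) = (z' i1 = z' i2) :=
      congrFun (congrFun (congrArg (fun p => p.2.1) h0) i1) i2
    show (t1.realize (Sum.elim (z ∘ g) (z ∘ h)) = t2.realize (Sum.elim (z ∘ g) (z ∘ h))) ↔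
      (t1.realize (Sum.elim (z' ∘ g) (z' ∘ h)) = t2.realize (Sum.elim (z' ∘ g) (z' ∘ h)))
    rw [h1 z, h2 z, h1 z', h2 z', h3]
  | rel R ts =>
    intro m g h j _ z z' hO
    cases R
    obtain ⟨i1, h1⟩ := term_eq G g h (ts 0)
    obtain ⟨i2, h2⟩ := term_eq G g h (ts 1)
    have h0 := O_zero G _ m z z' j hO
    have h3 : (G.Adj (z i1) (z i2)) = (G.Adj (z' i1) (z' i2)) :=
      congrFun (congrFun (congrArg (fun p => p.2.2) h0) i1) i2
    show G.Adj ((ts 0).realize (Sum.elim (z ∘ g) (z ∘ h)))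
        ((ts 1).realize (Sum.elim (z ∘ g) (z ∘ h))) ↔
      G.Adj ((ts 0).realize (Sum.elim (z' ∘ g) (z' ∘ h)))
        ((ts 1).realize (Sum.elim (z' ∘ g) (z' ∘ h)))
    rw [h1 z, h2 z, h1 z', h2 z', h3]
  | imp f1 f2 ih1 ih2 =>
    intro m g h j hj z z' hO
    have hj' : max (dep f1) (dep f2) ≤ j := hj
    rw [Language.BoundedFormula.realize_imp, Language.BoundedFormula.realize_imp,
      ih1 m g h j (le_trans (le_max_left _ _) hj') z z' hO,
      ih2 m g h j (le_trans (le_max_right _ _) hj') z z' hO]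
  | @all n f ih =>
    intro m g h j hj z z' hO
    have hj' : dep f + 1 ≤ j := hj
    obtain ⟨j', rfl⟩ : ∃ j', j = j' + 1 := ⟨j - 1, by omega⟩
    have hset : {p | ∃ b, p = (dpat G (6 ^ (j' + 1)) z b, O G (fun _ => ()) j' (m + 1) (ap z b))}
        = {p | ∃ b, p = (dpat G (6 ^ (j' + 1)) z' b,
          O G (fun _ => ()) j' (m + 1) (ap z' b))} := congrArg Prod.snd hO
    have hap1 : ∀ (y : Fin m → V) (b : V), (ap y b) ∘ (Fin.castSucc ∘ g) = y ∘ g := by
      intro y b
      funext a
      show Fin.snoc (α := fun _ => V) y b (Fin.castSucc (g a)) = y (g a)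
      rw [Fin.snoc_castSucc]
    have hap2 : ∀ (y : Fin m → V) (b : V),
        (ap y b) ∘ (Fin.snoc (α := fun _ => Fin (m + 1)) (Fin.castSucc ∘ h) (Fin.last m))
          = Fin.snoc (α := fun _ => V) (y ∘ h) b := by
      intro y b
      funext a
      refine Fin.lastCases ?_ (fun i => ?_) a
      · show Fin.snoc (α := fun _ => V) y b (Fin.snoc (α := fun _ => Fin (m + 1))
          (Fin.castSucc ∘ h) (Fin.last m) (Fin.last n)) = _
        rw [Fin.snoc_last, Fin.snoc_last, Fin.snoc_last]
      · show Fin.snoc (α := fun _ => V) y b (Fin.snoc (α := fun _ => Fin (m + 1))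
          (Fin.castSucc ∘ h) (Fin.last m) (Fin.castSucc i)) = _
        rw [Fin.snoc_castSucc, Fin.snoc_castSucc]
        show Fin.snoc (α := fun _ => V) y b (Fin.castSucc (h i)) = _
        rw [Fin.snoc_castSucc]
        rfl
    have hkey : ∀ (y y' : Fin m → V) (b b' : V),
        O G (fun _ => ()) j' (m + 1) (ap y b) = O G (fun _ => ()) j' (m + 1) (ap y' b') →
        (f.Realize (y ∘ g) (Fin.snoc (α := fun _ => V) (y ∘ h) b) ↔
          f.Realize (y' ∘ g) (Fin.snoc (α := fun _ => V) (y' ∘ h) b')) := by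
      intro y y' b b' hb
      have h1 := ih (m + 1) (Fin.castSucc ∘ g)
        (Fin.snoc (α := fun _ => Fin (m + 1)) (Fin.castSucc ∘ h) (Fin.last m)) j'
        (by omega) (ap y b) (ap y' b') hb
      rw [hap1, hap1, hap2, hap2] at h1
      exact h1
    rw [Language.BoundedFormula.realize_all, Language.BoundedFormula.realize_all]
    constructor
    · intro hall b'
      have hmem : (dpat G (6 ^ (j' + 1)) z' b', O G (fun _ => ()) j' (m + 1) (ap z' b')) ∈
          {p | ∃ b, p = (dpat G (6 ^ (j' + 1)) z' b,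
            O G (fun _ => ()) j' (m + 1) (ap z' b))} := ⟨b', rfl⟩
      rw [← hset] at hmem
      obtain ⟨b, hb⟩ := hmem
      exact (hkey z z' b b' (congrArg Prod.snd hb).symm).1 (hall b)
    · intro hall b
      have hmem : (dpat G (6 ^ (j' + 1)) z b, O G (fun _ => ()) j' (m + 1) (ap z b)) ∈
          {p | ∃ b, p = (dpat G (6 ^ (j' + 1)) z b,
            O G (fun _ => ()) j' (m + 1) (ap z b))} := ⟨b, rfl⟩
      rw [hset] at hmem
      obtain ⟨b', hb'⟩ := hmem
      exact (hkey z z' b b' (congrArg Prod.snd hb')).2 (hall b')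

theorem fm : S_FM := by
  intro k l φ
  refine ⟨dep φ, fun V G z z' hO => ?_⟩
  have h1 := gen G φ (k + l) (Sum.elim (Fin.castAdd l) (Fin.natAdd k)) (fun i => i.elim0)
    (dep φ) le_rfl z z' hO
  have e : ∀ y : Fin (k + l) → V, (Sum.elim (fun i => y (Fin.castAdd l i))
      (fun i => y (Fin.natAdd k i)) : Fin k ⊕ Fin l → V)
      = y ∘ Sum.elim (Fin.castAdd l) (Fin.natAdd k) := by
    intro y
    funext i
    cases i <;> rfl
  have e2 : ∀ y : Fin (k + l) → V, (y ∘ (fun i : Fin 0 => (i.elim0 : Fin (k + l)))) = default :=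
    fun y => Subsingleton.elim _ _
  rw [e2, e2] at h1
  unfold Sat
  rw [e z, e z']
  exact h1

end Pool.Agent.N749.ND
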